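import Pool.Agent.N20.DI.Stm3
import Pool.Agent.N723.DIDEC

/-!
# Project DI, part RAD (helper344): all chains and radical chains
-/

set_option autoImplicit false
set_option linter.unusedSectionVars false
set_option linter.unusedVariables false

open scoped Classical BigOperators

noncomputable section

namespace Pool.Agent.N344.DI

open Pool.Agent.R674.Ce
open Pool.Agent.Y63.KR (IsPChain chainStabilizer conjSub conjSub_eq_iff mem_chainStabilizer
  mem_conjSub conjSub_le conj_mem_conjSub conjSub_mul conjSub_conjSub_inv conjSub_inv_conjSub)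
open Pool.Agent.N20.DI (IsOp RadC S_RAD)
open Pool.Agent.N723.DI (lt_inf_normalizer)

variable {Γ : Type} [Group Γ] [Finite Γ] {p : ℕ} [Fact p.Prime]

/-- the `p`-subgroups strictly between `R` and `L` -/
def X (p : ℕ) (L R : Subgroup Γ) : Set (Subgroup Γ) := {P : Subgroup Γ | IsPGroup p P ∧ R < P ∧ P ≤ L}

/-- the normaliser as a subgroup -/
abbrev Nm (R : Subgroup Γ) : Subgroup Γ := Subgroup.normalizer (R : Set Γ)

theorem isPGroup_conj {P : Subgroup Γ} (hP : IsPGroup p P) (x : Γ) : IsPGroup p (conjSub x P) := by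
  unfold conjSub
  exact hP.map _

/-- the largest normal `p`-subgroup -/
theorem exists_op (L R : Subgroup Γ) (hR : IsPGroup p R) (hRL : R ≤ L)
    (hn : ∀ x ∈ L, conjSub x R = R) : ∃ Q : Subgroup Γ, R ≤ Q ∧ IsOp p L Q := by
  obtain ⟨Q, hRQ, hQ⟩ := (Set.toFinite {Q : Subgroup Γ | Q ≤ L ∧ IsPGroup p Q ∧
    ∀ x ∈ L, conjSub x Q = Q}).exists_le_maximal (a := R) ⟨hRL, hR, hn⟩
  obtain ⟨⟨hQL, hQp, hQn⟩, hQmax⟩ := hQ
  refine ⟨Q, hRQ, hQL, hQp, hQn, ?_⟩
  intro Q' hQ'L hQ'p hQ'n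
  have h1 : Q ⊔ Q' ∈ {Q : Subgroup Γ | Q ≤ L ∧ IsPGroup p Q ∧ ∀ x ∈ L, conjSub x Q = Q} := by
    refine ⟨sup_le hQL hQ'L, ?_, ?_⟩
    · refine IsPGroup.to_sup_of_normal_right' hQp hQ'p ?_
      intro y hy
      exact conjSub_eq_iff.1 (hQ'n y (hQL hy))
    · intro x hx
      rw [conjSub_sup, hQn x hx, hQ'n x hx]
  exact le_sup_right.trans (hQmax h1 le_sup_left)

/-- elements normalising `L` normalise the largest normal `p`-subgroup -/
theorem op_conj (J L Q : Subgroup Γ) (hJL : ∀ x ∈ J, conjSub x L = L) (hQ : IsOp p L Q) :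
    ∀ x ∈ J, conjSub x Q = Q := by
  have key : ∀ x ∈ J, conjSub x Q ≤ Q := by
    intro x hx
    obtain ⟨h1, h2, h3, h4⟩ := hQ
    refine h4 _ ?_ (isPGroup_conj h2 x) ?_
    · have := conjSub_le (g := x) h1
      rwa [hJL x hx] at this
    · intro y hy
      have hy' : x⁻¹ * y * x ∈ L := by
        rw [← mem_conjSub, hJL x hx]
        exact hy
      have e1 : conjSub y (conjSub x Q) = conjSub x (conjSub (x⁻¹ * y * x) Q) := by
        rw [← conjSub_mul, ← conjSub_mul]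
        congr 1
        group
      rw [e1, h3 _ hy']
  intro x hx
  refine le_antisymm (key x hx) ?_
  have h1 := conjSub_le (g := x) (key x⁻¹ (J.inv_mem hx))
  rwa [conjSub_conjSub_inv] at h1

theorem chainStab_empty (J : Subgroup Γ) : J ⊓ chainStabilizer (∅ : Set (Subgroup Γ)) = J := by
  ext x
  rw [Subgroup.mem_inf, mem_chainStabilizer]
  exact ⟨fun h => h.1, fun h => ⟨h, fun P hP => absurd hP (Set.notMem_empty P)⟩⟩

theorem chs_single (J Q : Subgroup Γ) (f : Subgroup Γ → ℤ) (hJ : ∀ x ∈ J, conjSub x Q = Q) :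
    chs {Q} (wt J f) = 0 := by
  have : Fintype (Subgroup Γ) := Fintype.ofFinite _
  have : Fintype (Set (Subgroup Γ)) := Fintype.ofFinite _
  rw [chs_eq]
  have e1 : (Finset.univ : Finset (Set (Subgroup Γ))).filter
      (fun σ => σ ⊆ {Q} ∧ IsChain (· ≤ ·) σ) = {∅, {Q}} := by
    ext σ
    simp only [Finset.mem_filter, Finset.mem_univ, true_and, Finset.mem_insert,
      Finset.mem_singleton]
    constructor
    · rintro ⟨h1, -⟩
      exact Set.subset_singleton_iff_eq.1 h1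
    · rintro (rfl | rfl)
      · exact ⟨Set.empty_subset _, Set.pairwise_empty _⟩
      · exact ⟨le_rfl, Set.pairwise_singleton _ _⟩
  rw [e1, Finset.sum_pair (fun h => by
    have : Q ∈ (∅ : Set (Subgroup Γ)) := by
      rw [h]
      exact Set.mem_singleton Q
    exact this)]
  unfold wt
  have e2 : J ⊓ chainStabilizer ({Q} : Set (Subgroup Γ)) = J := by
    ext x
    rw [Subgroup.mem_inf, mem_chainStabilizer]
    constructor
    · exact fun h => h.1
    · intro h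
      refine ⟨h, fun P hP => ?_⟩
      rw [Set.mem_singleton_iff.1 hP]
      exact hJ x h
  rw [chainStab_empty, e2, Set.ncard_empty, Set.ncard_singleton]
  ring

/-- the sum vanishes if `R` is not the largest normal `p`-subgroup of `L` -/
theorem chs_zero (J L R : Subgroup Γ) (hR : IsPGroup p R) (hRL : R ≤ L) (hLJ : L ≤ J)
    (hJL : ∀ x ∈ J, conjSub x L = L) (hJR : ∀ x ∈ J, conjSub x R = R) (h : ¬ IsOp p L R)
    (f : Subgroup Γ → ℤ) : chs (X p L R) (wt J f) = 0 := by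
  obtain ⟨Q, hRQ, hQ⟩ := exists_op (p := p) L R hR hRL (fun x hx => hJR x (hLJ hx))
  have hlt : R < Q := lt_of_le_of_ne hRQ (fun h1 => h (by rw [h1]; exact hQ))
  have hJQ := op_conj J L Q hJL hQ
  obtain ⟨hQL, hQp, hQn, hQmax⟩ := hQ
  have e1 := chs_sub' (J := J) f (X p L R) (fun P => P ⊔ Q)
    (by
      rintro P ⟨hP, hRP, hPL⟩
      refine ⟨?_, lt_of_lt_of_le hRP le_sup_left, sup_le hPL hQL⟩
      refine IsPGroup.to_sup_of_normal_right' hP hQp ?_
      intro y hy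
      exact conjSub_eq_iff.1 (hQn y (hPL hy)))
    (fun P _ => by
      rw [sup_assoc, sup_idem])
    (fun P _ Q' _ h => sup_le_sup_right h _)
    (fun P _ => le_sup_left)
    (fun P _ x hx h => by
      rw [conjSub_sup, h, hJQ x hx])
  rw [e1]
  have e2 := chs_sub (J := J) f {P | P ∈ X p L R ∧ (fun P => P ⊔ Q) P = P} (fun _ => Q)
    (by
      rintro P _
      exact ⟨⟨hQp, hlt, hQL⟩, sup_idem Q⟩)
    (fun P _ => rfl)
    (fun P _ Q' _ h => le_rfl)
    (fun P hP => by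
      have h1 : P ⊔ Q = P := hP.2
      rw [← h1]
      exact le_sup_right)
    (fun P _ x hx h => hJQ x hx)
  rw [e2]
  have s1 : {a | a ∈ ({P | P ∈ X p L R ∧ (fun P => P ⊔ Q) P = P} : Set (Subgroup Γ)) ∧
      (fun _ : Subgroup Γ => Q) a = a} = {Q} := by
    ext P
    constructor
    · rintro ⟨_, h2⟩
      exact h2.symm
    · intro h2
      rw [Set.mem_singleton_iff] at h2
      subst h2
      exact ⟨⟨⟨hQp, hlt, hQL⟩, sup_idem P⟩, rfl⟩
  rw [s1]
  exact chs_single J Q f hJQ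

/-- the chains above `R` in `L` and in the normaliser of `R` in `L` -/
theorem chs_norm (J L R : Subgroup Γ) (hRL : R ≤ L) (f : Subgroup Γ → ℤ) :
    chs (X p L R) (wt (J ⊓ Nm R) f) = chs (X p (L ⊓ Nm R) R) (wt (J ⊓ Nm R) f) := by
  have e1 := chs_sub (J := J ⊓ Nm R) f (X p L R) (fun P => P ⊓ Nm R)
    (by
      rintro P ⟨hP, hR, hPK⟩
      exact ⟨hP.to_le inf_le_left, lt_inf_normalizer hP hR, inf_le_left.trans hPK⟩)
    (fun P _ => by
      rw [inf_assoc, inf_idem])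
    (fun P _ Q _ h => inf_le_inf_right _ h)
    (fun P _ => inf_le_left)
    (fun P _ x hx h => by
      rw [conjSub_inf, h, conjSub_self (Subgroup.mem_inf.mp hx).2])
  have s1 : {a | a ∈ X p L R ∧ (fun P => P ⊓ Nm R) a = a} = X p (L ⊓ Nm R) R := by
    ext P
    constructor
    · rintro ⟨⟨hP, hR, hPK⟩, h2⟩
      have h3 : P ⊓ Nm R = P := h2
      exact ⟨hP, hR, le_inf hPK (inf_eq_left.mp h3)⟩
    · rintro ⟨hP, hR, hPK⟩
      exact ⟨⟨hP, hR, hPK.trans inf_le_left⟩, inf_eq_left.mpr (hPK.trans inf_le_right)⟩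
  rw [s1] at e1
  exact e1

/-- `Q` is the least member of `σ` -/
def Lst (Q : Subgroup Γ) (σ : Set (Subgroup Γ)) : Prop := Q ∈ σ ∧ ∀ P ∈ σ, Q ≤ P

/-- splitting by the least member -/
theorem split_least [Fintype (Subgroup Γ)] [Fintype (Set (Subgroup Γ))]
    (A : Set (Subgroup Γ) → Prop)
    (hA : ∀ σ, A σ → IsChain (· ≤ ·) σ) (h0 : A ∅) (w : Set (Subgroup Γ) → ℤ) :
    ∑ σ ∈ (Finset.univ : Finset (Set (Subgroup Γ))).filter A, w σ =
      w ∅ + ∑ Q : Subgroup Γ, ∑ σ ∈ (Finset.univ : Finset (Set (Subgroup Γ))).filter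
        (fun σ => A σ ∧ Lst Q σ), w σ := by
  have key : ∀ σ ∈ (Finset.univ : Finset (Set (Subgroup Γ))).filter A, w σ =
      (if σ = ∅ then w σ else 0) +
        ∑ Q : Subgroup Γ, if Lst Q σ then w σ else 0 := by
    intro σ hσ
    have hσ := hA σ (Finset.mem_filter.1 hσ).2
    by_cases h : σ = ∅
    · rw [if_pos h, Finset.sum_eq_zero, add_zero]
      intro Q _
      rw [if_neg]
      rintro ⟨h3, -⟩
      rw [h] at h3
      exact h3
    · rw [if_neg h, zero_add]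
      obtain ⟨Q, hQ1, hQ2⟩ := (Set.toFinite σ).exists_minimal
        (Set.nonempty_iff_ne_empty.2 h)
      have hQle : ∀ P ∈ σ, Q ≤ P := by
        intro P hP
        rcases hσ.total hQ1 hP with h3 | h3
        · exact h3
        · exact hQ2 hP h3
      rw [Finset.sum_eq_single Q]
      · rw [if_pos ⟨hQ1, hQle⟩]
      · intro Q' _ hne
        rw [if_neg]
        rintro ⟨h4, h5⟩
        exact hne (le_antisymm (h5 Q hQ1) (hQle Q' h4))
      · intro h3
        exact absurd (Finset.mem_univ _) h3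
  rw [Finset.sum_congr rfl key, Finset.sum_add_distrib, Finset.sum_comm]
  congr 1
  · rw [Finset.sum_ite_eq']
    rw [if_pos (Finset.mem_filter.2 ⟨Finset.mem_univ _, h0⟩)]
  · refine Finset.sum_congr rfl fun Q _ => ?_
    rw [← Finset.sum_filter, Finset.filter_filter]

theorem wt_least (J : Subgroup Γ) (f : Subgroup Γ → ℤ) (Q : Subgroup Γ) (τ : Set (Subgroup Γ))
    (hQ : Q ∉ τ) : wt J f (insert Q τ) = - wt (J ⊓ Nm Q) f τ := by
  unfold wt
  have e1 : (insert Q τ).ncard = τ.ncard + 1 :=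
    Set.ncard_insert_of_notMem hQ (Set.toFinite _)
  have e2 : J ⊓ chainStabilizer (insert Q τ) = J ⊓ Nm Q ⊓ chainStabilizer τ := by
    ext x
    simp only [Subgroup.mem_inf, mem_chainStabilizer]
    constructor
    · rintro ⟨h1, h2⟩
      exact ⟨⟨h1, conjSub_eq_iff.mp (h2 Q (Set.mem_insert _ _))⟩,
        fun P hP => h2 P (Set.mem_insert_of_mem _ hP)⟩
    · rintro ⟨⟨h1, h2⟩, h3⟩
      refine ⟨h1, ?_⟩
      rintro P (rfl | hP)
      · exact conjSub_eq_iff.mpr h2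
      · exact h3 P hP
  rw [e1, e2, pow_succ]
  ring

/-- the sum over the chains with least element `Q`, for a general class of chains -/
theorem sum_least [Fintype (Set (Subgroup Γ))] (J : Subgroup Γ) (f : Subgroup Γ → ℤ)
    (Q : Subgroup Γ) (A B : Set (Subgroup Γ) → Prop)
    (hAB : ∀ σ, A σ → Q ∈ σ → (∀ P ∈ σ, Q ≤ P) → B (σ \ {Q}))
    (hBA : ∀ τ, B τ → A (insert Q τ)) (hB : ∀ τ, B τ → ∀ P ∈ τ, Q < P) :
    ∑ σ ∈ (Finset.univ : Finset (Set (Subgroup Γ))).filter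
      (fun σ => A σ ∧ Lst Q σ), wt J f σ =
    - ∑ τ ∈ (Finset.univ : Finset (Set (Subgroup Γ))).filter B, wt (J ⊓ Nm Q) f τ := by
  rw [← Finset.sum_neg_distrib]
  refine Finset.sum_bij' (fun σ _ => σ \ {Q}) (fun τ _ => insert Q τ) ?_ ?_ ?_ ?_ ?_
  · intro σ hσ
    simp only [Finset.mem_filter, Finset.mem_univ, true_and] at hσ ⊢
    exact hAB σ hσ.1 hσ.2.1 hσ.2.2
  · intro τ hτ
    simp only [Finset.mem_filter, Finset.mem_univ, true_and] at hτ ⊢
    refine ⟨hBA τ hτ, Set.mem_insert _ _, ?_⟩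
    rintro P (rfl | hP)
    · exact le_rfl
    · exact (hB τ hτ P hP).le
  · intro σ hσ
    simp only [Finset.mem_filter, Finset.mem_univ, true_and] at hσ
    rw [Set.insert_sdiff_singleton, Set.insert_eq_of_mem hσ.2.1]
  · intro τ hτ
    simp only [Finset.mem_filter, Finset.mem_univ, true_and] at hτ
    exact Set.insert_sdiff_self_of_notMem fun h => lt_irrefl _ (hB τ hτ Q h)
  · intro σ hσ
    simp only [Finset.mem_filter, Finset.mem_univ, true_and] at hσ
    have hin : insert Q (σ \ {Q}) = σ := by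
      rw [Set.insert_sdiff_singleton, Set.insert_eq_of_mem hσ.2.1]
    rw [← wt_least J f Q (σ \ {Q}) (fun h => h.2 rfl), hin]

theorem stab_eq (L Q P : Subgroup Γ) (τ : Set (Subgroup Γ)) (hQP : Q ≤ P) :
    L ⊓ chainStabilizer {S | S ∈ insert Q τ ∧ S ≤ P} =
      L ⊓ Nm Q ⊓ chainStabilizer {S | S ∈ τ ∧ S ≤ P} := by
  ext x
  simp only [Subgroup.mem_inf, mem_chainStabilizer]
  constructor
  · rintro ⟨h1, h2⟩
    exact ⟨⟨h1, conjSub_eq_iff.mp (h2 Q ⟨Set.mem_insert _ _, hQP⟩)⟩,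
      fun S hS => h2 S ⟨Set.mem_insert_of_mem _ hS.1, hS.2⟩⟩
  · rintro ⟨⟨h1, h2⟩, h3⟩
    refine ⟨h1, ?_⟩
    rintro S ⟨rfl | hS, hSP⟩
    · exact conjSub_eq_iff.mpr h2
    · exact h3 S ⟨hS, hSP⟩

theorem stab_self (L Q : Subgroup Γ) (τ : Set (Subgroup Γ)) (hτ : ∀ P ∈ τ, Q < P) :
    L ⊓ chainStabilizer {S | S ∈ insert Q τ ∧ S ≤ Q} = L ⊓ Nm Q := by
  ext x
  simp only [Subgroup.mem_inf, mem_chainStabilizer]
  constructor
  · rintro ⟨h1, h2⟩
    exact ⟨h1, conjSub_eq_iff.mp (h2 Q ⟨Set.mem_insert _ _, le_rfl⟩)⟩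
  · rintro ⟨h1, h2⟩
    refine ⟨h1, ?_⟩
    rintro S ⟨rfl | hS, hSP⟩
    · exact conjSub_eq_iff.mpr h2
    · exact absurd (lt_of_lt_of_le (hτ S hS) hSP) (lt_irrefl _)

theorem radC_empty (L R : Subgroup Γ) : (∅ : Set (Subgroup Γ)) ∈ RadC p L R :=
  ⟨Set.empty_subset _, Set.pairwise_empty _, fun P hP => absurd hP (Set.notMem_empty P)⟩

theorem rad_sum [Fintype (Set (Subgroup Γ))] (J L R : Subgroup Γ) (f : Subgroup Γ → ℤ) :
    ∑ᶠ σ : {σ : Set (Subgroup Γ) // σ ∈ RadC p L R}, wt J f σ.1 =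
      ∑ σ ∈ (Finset.univ : Finset (Set (Subgroup Γ))).filter (fun σ => σ ∈ RadC p L R),
        wt J f σ := by
  have : Fintype {σ : Set (Subgroup Γ) // σ ∈ RadC p L R} := Fintype.ofFinite _
  rw [finsum_eq_sum_of_fintype]
  exact (Finset.sum_subtype _ (by simp) (wt J f)).symm

theorem rad_least [Fintype (Set (Subgroup Γ))] (J L R Q : Subgroup Γ) (f : Subgroup Γ → ℤ)
    (hQ : Q ∈ X p L R) (hop : IsOp p (L ⊓ Nm Q) Q) :
    ∑ σ ∈ (Finset.univ : Finset (Set (Subgroup Γ))).filter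
      (fun σ => σ ∈ RadC p L R ∧ Lst Q σ), wt J f σ =
    - ∑ τ ∈ (Finset.univ : Finset (Set (Subgroup Γ))).filter
      (fun τ => τ ∈ RadC p (L ⊓ Nm Q) Q), wt (J ⊓ Nm Q) f τ := by
  refine sum_least J f Q (fun σ => σ ∈ RadC p L R) (fun τ => τ ∈ RadC p (L ⊓ Nm Q) Q) ?_ ?_ ?_
  · rintro σ ⟨h1, h2, h3⟩ hQσ hle
    have hin : insert Q (σ \ {Q}) = σ := by
      rw [Set.insert_sdiff_singleton, Set.insert_eq_of_mem hQσ]
    have hst : ∀ P ∈ σ \ {Q}, L ⊓ chainStabilizer {S | S ∈ σ ∧ S ≤ P} =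
        L ⊓ Nm Q ⊓ chainStabilizer {S | S ∈ σ \ {Q} ∧ S ≤ P} := by
      intro P hP
      have := stab_eq L Q P (σ \ {Q}) (hle P hP.1)
      rwa [hin] at this
    refine ⟨?_, h2.mono Set.sdiff_subset, ?_⟩
    · rintro P hP
      have hop' := h3 P hP.1
      rw [hst P hP] at hop'
      exact ⟨(h1 hP.1).1, lt_of_le_of_ne (hle P hP.1) (fun h => hP.2 h.symm),
        hop'.1.trans inf_le_left⟩
    · intro P hP
      rw [← hst P hP]
      exact h3 P hP.1
  · rintro τ ⟨h1, h2, h3⟩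
    have hlt : ∀ P ∈ τ, Q < P := fun P hP => (h1 hP).2.1
    refine ⟨?_, ?_, ?_⟩
    · refine Set.insert_subset hQ ?_
      intro P hP
      exact ⟨(h1 hP).1, hQ.2.1.trans (hlt P hP), (h1 hP).2.2.trans inf_le_left⟩
    · exact h2.insert fun P hP _ => Or.inl (hlt P hP).le
    · rintro P (rfl | hP)
      · rw [stab_self L P τ hlt]
        exact hop
      · rw [stab_eq L Q P τ (hlt P hP).le]
        exact h3 P hP
  · rintro τ ⟨h1, -, -⟩ P hP
    exact (h1 hP).2.1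

theorem rad_least_zero [Fintype (Set (Subgroup Γ))] (J L R Q : Subgroup Γ) (f : Subgroup Γ → ℤ)
    (h : ¬ (Q ∈ X p L R ∧ IsOp p (L ⊓ Nm Q) Q)) :
    ∑ σ ∈ (Finset.univ : Finset (Set (Subgroup Γ))).filter
      (fun σ => σ ∈ RadC p L R ∧ Lst Q σ), wt J f σ = 0 := by
  rw [Finset.filter_eq_empty_iff.2, Finset.sum_empty]
  rintro σ - ⟨⟨h1, h2, h3⟩, hQσ, hle⟩
  apply h
  refine ⟨h1 hQσ, ?_⟩
  have hin : insert Q (σ \ {Q}) = σ := by
    rw [Set.insert_sdiff_singleton, Set.insert_eq_of_mem hQσ]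
  have := stab_self L Q (σ \ {Q}) (fun P hP => lt_of_le_of_ne (hle P hP.1) (fun h => hP.2 h.symm))
  rw [hin] at this
  rw [← this]
  exact h3 Q hQσ

/-- all chains -/
def AllC (p : ℕ) (L R : Subgroup Γ) (σ : Set (Subgroup Γ)) : Prop :=
  σ ⊆ X p L R ∧ IsChain (· ≤ ·) σ

theorem chs_all [Fintype (Set (Subgroup Γ))] (L R : Subgroup Γ) (w : Set (Subgroup Γ) → ℤ) :
    chs (X p L R) w = ∑ σ ∈ (Finset.univ : Finset (Set (Subgroup Γ))).filter
      (fun σ => AllC p L R σ), w σ := by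
  rw [chs_eq]
  refine Finset.sum_congr ?_ fun _ _ => rfl
  ext σ
  simp only [Finset.mem_filter, Finset.mem_univ, true_and]
  exact Iff.rfl

theorem all_least [Fintype (Set (Subgroup Γ))] (J L R Q : Subgroup Γ) (f : Subgroup Γ → ℤ)
    (hQ : Q ∈ X p L R) :
    ∑ σ ∈ (Finset.univ : Finset (Set (Subgroup Γ))).filter
      (fun σ => AllC p L R σ ∧ Lst Q σ), wt J f σ =
    - chs (X p (L ⊓ Nm Q) Q) (wt (J ⊓ Nm Q) f) := by
  rw [← chs_norm J L Q hQ.2.2 f, chs_all]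
  refine sum_least J f Q (fun σ => AllC p L R σ) (fun τ => AllC p L Q τ) ?_ ?_ ?_
  · rintro σ ⟨h1, h2⟩ hQσ hle
    refine ⟨?_, h2.mono Set.sdiff_subset⟩
    intro P hP
    exact ⟨(h1 hP.1).1, lt_of_le_of_ne (hle P hP.1) (fun h => hP.2 h.symm), (h1 hP.1).2.2⟩
  · rintro τ ⟨h1, h2⟩
    refine ⟨Set.insert_subset hQ ?_, h2.insert fun P hP _ => Or.inl (h1 hP).2.1.le⟩
    intro P hP
    exact ⟨(h1 hP).1, hQ.2.1.trans (h1 hP).2.1, (h1 hP).2.2⟩
  · rintro τ ⟨h1, -⟩ P hP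
    exact (h1 hP).2.1

theorem all_least_zero [Fintype (Set (Subgroup Γ))] (J L R Q : Subgroup Γ) (f : Subgroup Γ → ℤ)
    (hQ : Q ∉ X p L R) :
    ∑ σ ∈ (Finset.univ : Finset (Set (Subgroup Γ))).filter
      (fun σ => AllC p L R σ ∧ Lst Q σ), wt J f σ = 0 := by
  rw [Finset.filter_eq_empty_iff.2, Finset.sum_empty]
  rintro σ - ⟨⟨h1, h2⟩, hQσ, hle⟩
  exact hQ (h1 hQσ)

theorem main (f : Subgroup Γ → ℤ) : ∀ (n : ℕ) (J L R : Subgroup Γ),
    Nat.card Γ - Nat.card R = n → IsPGroup p R → R ≤ L → L ≤ J → (∀ x ∈ J, conjSub x L = L) →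
    (∀ x ∈ J, conjSub x R = R) →
    chs (X p L R) (wt J f) = ∑ᶠ σ : {σ : Set (Subgroup Γ) // σ ∈ RadC p L R}, wt J f σ.1 := by
  have i1 : Fintype (Subgroup Γ) := Fintype.ofFinite _
  have i2 : Fintype (Set (Subgroup Γ)) := Fintype.ofFinite _
  intro n
  induction n using Nat.strong_induction_on with
  | _ n ih =>
    intro J L R hn hR hRL hLJ hJL hJR
    rw [rad_sum, chs_all]
    rw [split_least (fun σ => AllC p L R σ) (fun σ h => h.2)
      ⟨Set.empty_subset _, Set.pairwise_empty _⟩,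
      split_least (fun σ => σ ∈ RadC p L R) (fun σ h => h.2.1) (radC_empty L R)]
    congr 1
    refine Finset.sum_congr rfl fun Q _ => ?_
    by_cases hQ : Q ∈ X p L R
    · have hlt : Nat.card Γ - Nat.card Q < n := by
        have h1 : Nat.card R < Nat.card Q := by
          have h3 : (R : Set Γ) ⊂ (Q : Set Γ) := hQ.2.1
          exact Set.ncard_lt_ncard h3 (Set.toFinite _)
        have h2 : Nat.card Q ≤ Nat.card Γ := Subgroup.card_le_card_group Q
        omega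
      have hnorm : ∀ x ∈ J ⊓ Nm Q, conjSub x Q = Q :=
        fun x hx => conjSub_eq_iff.2 (Subgroup.mem_inf.1 hx).2
      have hQL' : Q ≤ L ⊓ Nm Q := le_inf hQ.2.2 Subgroup.le_normalizer
      have hLJ' : L ⊓ Nm Q ≤ J ⊓ Nm Q := inf_le_inf_right _ hLJ
      have hJL' : ∀ x ∈ J ⊓ Nm Q, conjSub x (L ⊓ Nm Q) = L ⊓ Nm Q := by
        intro x hx
        rw [conjSub_inf, hJL x (Subgroup.mem_inf.1 hx).1,
          conjSub_self (Subgroup.mem_inf.mp hx).2]
      have hih := ih _ hlt (J ⊓ Nm Q) (L ⊓ Nm Q) Q rfl hQ.1 hQL' hLJ' hJL' hnorm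
      rw [all_least J L R Q f hQ]
      by_cases hop : IsOp p (L ⊓ Nm Q) Q
      · rw [rad_least J L R Q f hQ hop, hih, rad_sum]
      · rw [rad_least_zero J L R Q f (fun h => hop h.2),
          chs_zero (J ⊓ Nm Q) (L ⊓ Nm Q) Q hQ.1 hQL' hLJ' hJL' hnorm hop f, neg_zero]
    · rw [all_least_zero J L R Q f hQ, rad_least_zero J L R Q f (fun h => hQ h.1)]

/-- **All chains and radical chains.** -/
theorem RAD : S_RAD := by
  intro p _ E _ _ J L R hR hRL hLJ hJL hJR f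
  exact main (p := p) f _ J L R rfl hR hRL hLJ hJL hJR

end Pool.Agent.N344.DI
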